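import Pool.Agent.Helper20.QD.St3

/-!
# Project QD, part B (MP_d112a4_gt): module LGO, reaching the normalised situation
-/

set_option autoImplicit false

open Filter Topology Matrix Set Metric
open scoped ComplexConjugate ComplexOrder

namespace Pool.Agent.Helper80.QD

open Pool.Agent.Helper35.PM Pool.Agent.Helper20.QD

private theorem den_log (A : SL) (J : Set ℂ)
    (h : (A : Mat) 1 0 ≠ 0 → LogOn J (fun z => z - -((A : Mat) 1 1) / (A : Mat) 1 0)) :
    LogOn J (den A) := by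
  by_cases hc : (A : Mat) 1 0 = 0
  · have hd : (A : Mat) 1 1 ≠ 0 := by
      intro h0
      have hdet := A.det_coe
      rw [Matrix.det_fin_two, hc, h0] at hdet
      simp at hdet
    refine ⟨fun _ => Complex.log ((A : Mat) 1 1), continuousOn_const, fun z _ => ?_⟩
    unfold den
    rw [Complex.exp_log hd, hc, zero_mul, zero_add]
  · obtain ⟨g, hg, hz⟩ := h hc
    refine ⟨fun z => Complex.log ((A : Mat) 1 0) + g z, continuousOn_const.add hg, fun z hzJ => ?_⟩
    rw [Complex.exp_add, Complex.exp_log hc, ← hz z hzJ]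
    unfold den
    field_simp
    ring

private theorem den_root (A : SL) (hc : (A : Mat) 1 0 ≠ 0) : den A (-((A : Mat) 1 1) / (A : Mat) 1 0) = 0 := by
  unfold den
  field_simp
  ring

private theorem exists_param {L : Set ℂ} {S : Set Mat} (hL : IsCompact L) (hS : S = Qp '' L)
    (hQc : Continuous Qp) (hQi : Function.Injective Qp) (hjord : Nonempty (S ≃ₜ Circle)) :
    ∃ β, Param β L := by
  obtain ⟨h⟩ := hjord
  have hcomp : CompactSpace L := isCompact_iff_compactSpace.1 hL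
  have hmem : ∀ z : L, Qp z ∈ S := fun z => by
    rw [hS]
    exact mem_image_of_mem Qp z.2
  let e0 : L ≃ S := Equiv.ofBijective (fun z => ⟨Qp z, hmem z⟩) (by
    constructor
    · intro a b hab
      exact Subtype.ext (hQi (congrArg Subtype.val hab))
    · rintro ⟨Q, hQ⟩
      rw [hS] at hQ
      obtain ⟨z, hz, rfl⟩ := hQ
      exact ⟨⟨z, hz⟩, rfl⟩)
  have he0 : Continuous e0 := (hQc.comp continuous_subtype_val).subtype_mk _
  let e : L ≃ₜ S := he0.homeoOfEquivCompactToT2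
  let g : Circle ≃ₜ L := (e.trans h).symm
  let c : (sphere (0 : ℂ) 1 : Set ℂ) ≃ₜ Circle := Homeomorph.refl Circle
  let G : (sphere (0 : ℂ) 1 : Set ℂ) ≃ₜ L := c.trans g
  classical
  let β : ℂ → ℂ := fun z => if hz : z ∈ SS then (G ⟨z, hz⟩ : ℂ) else 0
  have hβ : ∀ z (hz : z ∈ SS), β z = (G ⟨z, hz⟩ : ℂ) := fun z hz => dif_pos hz
  refine ⟨β, ?_, ?_, ?_⟩
  · rw [continuousOn_iff_continuous_domRestrict]
    have h1 : SS.domRestrict β = fun z => (G z : ℂ) := by
      funext z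
      exact hβ z.1 z.2
    rw [h1]
    exact continuous_subtype_val.comp G.continuous
  · intro x hx y hy hxy
    rw [hβ x hx, hβ y hy] at hxy
    have h2 := G.injective (Subtype.ext hxy)
    exact congrArg Subtype.val h2
  · ext w
    constructor
    · rintro ⟨z, hz, rfl⟩
      rw [hβ z hz]
      exact (G ⟨z, hz⟩).2
    · intro hw
      refine ⟨(G.symm ⟨w, hw⟩ : ℂ), (G.symm ⟨w, hw⟩).2, ?_⟩
      rw [hβ _ (G.symm ⟨w, hw⟩).2]
      have h3 : G (G.symm ⟨w, hw⟩) = ⟨w, hw⟩ := G.apply_symm_apply _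
      exact congrArg Subtype.val h3

private theorem Qp_quot (z : ℂ) : Qp z 1 1 ≠ 0 ∧ Qp z 0 1 / Qp z 1 1 = z := by
  have h0 : (((1 + ‖z‖ ^ 2 : ℝ)) : ℂ) ≠ 0 := by
    rw [Ne, Complex.ofReal_eq_zero]
    positivity
  have h11 : Qp z 1 1 = (((1 + ‖z‖ ^ 2 : ℝ)) : ℂ)⁻¹ := by
    simp [Qp]
  have h01 : Qp z 0 1 = (((1 + ‖z‖ ^ 2 : ℝ)) : ℂ)⁻¹ * z := by
    simp [Qp]
  refine ⟨?_, ?_⟩
  · rw [h11]
    exact inv_ne_zero h0
  · rw [h11, h01, mul_comm, mul_div_assoc, div_self (inv_ne_zero h0), mul_one]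

/-- module LGO -/
theorem hLGO (hLQC : StLQC) (hLLA : StLLA) (hTJ2 : StTJ2) (hTMS : StTMS) : StLGO := by
  intro Γ _ ρ hcc hinf hjord
  obtain ⟨q1, q2, q3, -, -, q6, q7, q8, -, -, -⟩ := hLQC
  obtain ⟨hcomp, himg, hinv, hcinv, -⟩ := hLLA Γ ρ hcc.discrete hinf
  have hpar : ∃ β, Param β (Lam ρ) := exists_param hcomp himg q6 q7 hjord
  obtain ⟨β, hβ⟩ := hpar
  obtain ⟨hio, hib, -, hoo, -, -, -, -⟩ := hTJ2 β (Lam ρ) hβ
  -- points of the complement
  have hroot : ∀ γ, ((ρ γ : SL) : Mat) 1 0 ≠ 0 →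
      -(((ρ γ : SL) : Mat) 1 1) / ((ρ γ : SL) : Mat) 1 0 ∉ Lam ρ := by
    intro γ hc hq
    exact (hinv γ _ hq).1 (den_root (ρ γ) hc)
  refine ⟨⟨β, hβ⟩, ?_, ?_, ?_⟩
  · intro hsides γ
    apply den_log
    intro hc
    by_contra hno
    have hqL := hroot γ hc
    have hqi : -(((ρ γ : SL) : Mat) 1 1) / ((ρ γ : SL) : Mat) 1 0 ∈ inn (Lam ρ) := ⟨hqL, hno⟩
    generalize hq : -(((ρ γ : SL) : Mat) 1 1) / ((ρ γ : SL) : Mat) 1 0 = q at hqL hqi
    have hden : den (ρ γ) q = 0 := by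
      rw [← hq]
      exact den_root (ρ γ) hc
    have hact : act (ρ γ) (Qp q) = Qinf := (q8 (ρ γ) q).2 hden
    obtain ⟨T, hT, hTs, hT1, hT2⟩ := hsides γ (Qp q) ⟨(q3 q).1, hqL⟩
    rw [hact] at hT2
    -- two open sets
    have hKc : IsCompact (inn (Lam ρ) ∪ Lam ρ) := by
      apply isCompact_of_isClosed_isBounded
      · have h1 : inn (Lam ρ) ∪ Lam ρ = (out (Lam ρ))ᶜ := by
          ext z
          constructor
          · rintro (hz | hz) hz'
            · exact hz.2 hz'.2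
            · exact hz'.1 hz
          · intro hz
            by_cases hzL : z ∈ Lam ρ
            · exact Or.inr hzL
            · exact Or.inl ⟨hzL, fun h => hz ⟨hzL, h⟩⟩
        rw [h1]
        exact hoo.isClosed_compl
      · exact hib.union hcomp.isBounded
    have hO1 : IsOpen (Qp '' (inn (Lam ρ) ∪ Lam ρ))ᶜ := (hKc.image q6).isClosed.isOpen_compl
    have hO2 : IsOpen ({P : Mat | P 1 1 ≠ 0} ∩ (fun P : Mat => P 0 1 / P 1 1) ⁻¹' inn (Lam ρ)) := by
      have hop : IsOpen {P : Mat | P 1 1 ≠ 0} :=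
        isOpen_ne_fun (Continuous.matrix_elem continuous_id 1 1) continuous_const
      refine ContinuousOn.isOpen_inter_preimage ?_ hop hio
      exact (Continuous.matrix_elem continuous_id 0 1).continuousOn.div (Continuous.matrix_elem continuous_id 1 1).continuousOn
        fun P hP => hP
    have hcov : T ⊆ (Qp '' (inn (Lam ρ) ∪ Lam ρ))ᶜ ∪
        ({P : Mat | P 1 1 ≠ 0} ∩ (fun P : Mat => P 0 1 / P 1 1) ⁻¹' inn (Lam ρ)) := by
      intro Q hQ
      rcases q1 Q (hTs hQ).1 with h | ⟨z, h⟩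
      · left
        rintro ⟨z, _, hz⟩
        exact (q3 z).2 (hz.trans h)
      · by_cases hz : z ∈ inn (Lam ρ)
        · right
          rw [h]
          refine ⟨(Qp_quot z).1, ?_⟩
          change Qp z 0 1 / Qp z 1 1 ∈ inn (Lam ρ)
          rw [(Qp_quot z).2]
          exact hz
        · left
          rintro ⟨w, hw, hwQ⟩
          have e := q7 (hwQ.trans h)
          rw [e] at hw
          rcases hw with hw | hw
          · exact hz hw
          · have h2 := (hTs hQ).2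
            rw [h] at h2
            exact h2 hw
    have h1 : (T ∩ (Qp '' (inn (Lam ρ) ∪ Lam ρ))ᶜ).Nonempty := by
      refine ⟨Qinf, hT2, ?_⟩
      rintro ⟨z, _, hz⟩
      exact (q3 z).2 hz
    have h2 : (T ∩ ({P : Mat | P 1 1 ≠ 0} ∩ (fun P : Mat => P 0 1 / P 1 1) ⁻¹' inn (Lam ρ))).Nonempty := by
      refine ⟨Qp q, hT1, (Qp_quot q).1, ?_⟩
      change Qp q 0 1 / Qp q 1 1 ∈ inn (Lam ρ)
      rw [(Qp_quot q).2]
      exact hqi
    obtain ⟨Q, hQT, hQ1, hQ0, hQ2⟩ := hT _ _ hO1 hO2 hcov h1 h2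
    rcases q1 Q (hTs hQT).1 with h | ⟨z, h⟩
    · apply hQ0
      rw [h]
      simp [Qinf]
    · rw [h] at hQ1 hQ2
      apply hQ1
      refine ⟨z, Or.inl ?_, rfl⟩
      have h3 : Qp z 0 1 / Qp z 1 1 ∈ inn (Lam ρ) := hQ2
      rwa [(Qp_quot z).2] at h3
  · intro hlog
    refine ⟨hcc, hinf, ⟨β, hβ⟩, ?_⟩
    intro γ z hz
    obtain ⟨h1, h2⟩ := hTMS (ρ γ) (Lam ρ) (hinv γ) (hlog γ) z hz
    exact ⟨h1, h2 (hcinv γ z hz.1 h1)⟩
  · intro hgood γ
    apply den_log
    intro hc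
    by_contra hno
    exact (hgood.side γ _ ⟨hroot γ hc, hno⟩).1 (den_root (ρ γ) hc)

end Pool.Agent.Helper80.QD
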