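import Pool.Agent.Helper20.QD.St1

/-!
# Project QD, part B (MP_d112a4_gt): module TJ2, the Jordan curve theorem, at most two components
-/

set_option autoImplicit false

open Filter Topology Matrix Set Metric
open scoped ComplexConjugate

namespace Pool.Agent.Helper80.QD

open Pool.Agent.Helper35.PM Pool.Agent.Helper20.QD

private theorem comp_open {J : Set ℂ} (hJ : IsClosed J) (p : ℂ) : IsOpen (connectedComponentIn Jᶜ p) :=
  hJ.isOpen_compl.connectedComponentIn

private theorem comp_frontier {J : Set ℂ} (hJ : IsClosed J) (p : ℂ) :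
    frontier (connectedComponentIn Jᶜ p) ⊆ J := by
  intro x hx
  by_contra hxJ
  rw [(comp_open hJ p).frontier_eq] at hx
  have hxV : x ∈ connectedComponentIn Jᶜ x := mem_connectedComponentIn hxJ
  obtain ⟨y, hy1, hy2⟩ := mem_closure_iff.1 hx.1 _ (comp_open hJ x) hxV
  have e1 := connectedComponentIn_eq hy1
  have e2 := connectedComponentIn_eq hy2
  apply hx.2
  rw [e2, ← e1]
  exact hxV

private theorem ext_pre (R : ℝ) : IsPreconnected {z : ℂ | R ≤ ‖z‖} := by
  have h : {z : ℂ | R ≤ ‖z‖} =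
      (fun q : ℝ × ℝ => (q.1 : ℂ) * Complex.exp ((q.2 : ℂ) * Complex.I)) ''
        {q : ℝ × ℝ | 0 ≤ q.1 ∧ R ≤ q.1} := by
    ext z
    constructor
    · intro hz
      exact ⟨(‖z‖, Complex.arg z), ⟨norm_nonneg z, hz⟩, Complex.norm_mul_exp_arg_mul_I z⟩
    · rintro ⟨⟨r, t⟩, ⟨hr0, hr⟩, rfl⟩
      change R ≤ ‖(r : ℂ) * Complex.exp ((t : ℂ) * Complex.I)‖
      rw [norm_mul, Complex.norm_exp_ofReal_mul_I, mul_one, Complex.norm_real, Real.norm_eq_abs,
        abs_of_nonneg hr0]
      exact hr
  rw [h]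
  apply IsPreconnected.image
  · apply Convex.isPreconnected
    intro x hx y hy a b ha hb hab
    refine ⟨?_, ?_⟩
    · change 0 ≤ a * x.1 + b * y.1
      have h1 := mul_nonneg ha hx.1
      have h2 := mul_nonneg hb hy.1
      linarith
    · change R ≤ a * x.1 + b * y.1
      have h1 := mul_le_mul_of_nonneg_left hx.2 ha
      have h2 := mul_le_mul_of_nonneg_left hy.2 hb
      have h3 : a * R + b * R = R := by rw [← add_mul, hab, one_mul]
      linarith
  · fun_prop

/-- module TJ2 -/
theorem hTJ2 (hTCI : StTCI) (hTPB : StTPB) (hTSA : StTSA) (hTJM : StTJM) : StTJ2 := by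
  intro β J hβ
  obtain ⟨hc, hi, hJ⟩ := hβ
  obtain ⟨-, p2, p3, p4, -, p6⟩ := hTPB
  obtain ⟨s1, s2⟩ := hTSA
  have hSS : IsCompact SS := isCompact_sphere 0 1
  have hJc : IsCompact J := by
    rw [← hJ]
    exact hSS.image_of_continuousOn hc
  have hJcl : IsClosed J := hJc.isClosed
  obtain ⟨R, hR0, hR⟩ := hJc.isBounded.subset_ball_lt 0 (0 : ℂ)
  -- logarithms of `z - p` along preconnected sets
  have hsame : ∀ (C : Set ℂ) (p q : ℂ), IsPreconnected C → C ⊆ Jᶜ → p ∈ C → q ∈ C →
      LogOn J (fun z => z - q) → LogOn J (fun z => z - p) := by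
    intro C p q hC hCJ hp hq hL
    have h1 := s1 J C p q hJc hC (disjoint_left.2 fun x hx hxJ => hCJ hx hxJ) hp hq
    refine p6 J J _ _ subset_rfl (p3 J _ _ h1 hL) ?_
    intro z hz
    have hzq : z - q ≠ 0 := by
      intro h
      exact hCJ hq (sub_eq_zero.1 h ▸ hz)
    exact div_mul_cancel₀ _ hzq
  have hfar : ∀ z : ℂ, R ≤ ‖z‖ → z ∈ out J := by
    intro z hz
    refine ⟨fun hzJ => ?_, s2 J z R hR hz⟩
    have h := hR hzJ
    rw [mem_ball_zero_iff] at h
    exact absurd hz (not_le.2 h)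
  -- components
  have hVJ : ∀ p, connectedComponentIn Jᶜ p ⊆ Jᶜ := fun p => connectedComponentIn_subset _ _
  have hVpre : ∀ p, IsPreconnected (connectedComponentIn Jᶜ p) := fun p => isPreconnected_connectedComponentIn
  have hVout : ∀ p ∈ out J, connectedComponentIn Jᶜ p ⊆ out J := by
    intro p hp q hq
    exact ⟨hVJ p hq, hsame _ q p (hVpre p) (hVJ p) hq (mem_connectedComponentIn hp.1) hp.2⟩
  have hVinn : ∀ p ∈ inn J, connectedComponentIn Jᶜ p ⊆ inn J := by
    intro p hp q hq
    exact ⟨hVJ p hq, fun hL => hp.2 (hsame _ p q (hVpre p) (hVJ p) (mem_connectedComponentIn hp.1) hq hL)⟩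
  -- unbounded components
  have hunb : ∀ p, ¬ Bornology.IsBounded (connectedComponentIn Jᶜ p) →
      {z : ℂ | R ≤ ‖z‖} ⊆ connectedComponentIn Jᶜ p := by
    intro p hp
    have hex : ∃ z ∈ connectedComponentIn Jᶜ p, R ≤ ‖z‖ := by
      by_contra hno
      push Not at hno
      apply hp
      refine (isBounded_ball (x := (0 : ℂ)) (r := R)).subset ?_
      intro z hz
      rw [mem_ball_zero_iff]
      exact hno z hz
    obtain ⟨z, hz, hzR⟩ := hex
    have h1 : {z : ℂ | R ≤ ‖z‖} ⊆ connectedComponentIn Jᶜ z :=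
      (ext_pre R).subset_connectedComponentIn hzR fun w hw => (hfar w hw).1
    rwa [← connectedComponentIn_eq hz] at h1
  -- bounded components
  have hbdd : ∀ p, p ∉ J → Bornology.IsBounded (connectedComponentIn Jᶜ p) → p ∈ inn J := by
    intro p hp hb
    refine ⟨hp, fun hL => ?_⟩
    have h := hTJM (connectedComponentIn Jᶜ p) J p (fun _ => 1) 1 (comp_open hJcl p) hb
      (mem_connectedComponentIn hp) (comp_frontier hJcl p) continuousOn_const (fun _ _ => one_ne_zero)
      (p6 J J _ _ subset_rfl hL fun z _ => by rw [zpow_one, mul_one])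
    exact one_ne_zero h
  -- the outside
  have he0 : ((R : ℝ) : ℂ) ∈ {z : ℂ | R ≤ ‖z‖} := by
    change R ≤ ‖((R : ℝ) : ℂ)‖
    rw [Complex.norm_real, Real.norm_eq_abs, abs_of_pos hR0]
  have hout : out J = connectedComponentIn Jᶜ ((R : ℝ) : ℂ) := by
    apply Subset.antisymm
    · intro p hp
      have hnb : ¬ Bornology.IsBounded (connectedComponentIn Jᶜ p) := by
        intro hb
        exact (hbdd p hp.1 hb).2 hp.2
      have h1 := hunb p hnb he0
      rw [← connectedComponentIn_eq h1]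
      exact mem_connectedComponentIn hp.1
    · exact hVout _ (hfar _ he0)
  -- the inside
  have hinn : inn J = ∅ ∨ ∃ p ∈ inn J, Bornology.IsBounded (connectedComponentIn Jᶜ p) ∧
      inn J = connectedComponentIn Jᶜ p := by
    rcases (inn J).eq_empty_or_nonempty with h | ⟨p, hp⟩
    · exact Or.inl h
    · right
      have hb : Bornology.IsBounded (connectedComponentIn Jᶜ p) := by
        by_contra hnb
        have h1 := hunb p hnb he0
        exact (hVinn p hp h1).2 (hfar _ he0).2
      refine ⟨p, hp, hb, Subset.antisymm ?_ (hVinn p hp)⟩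
      intro q hq
      by_contra hqV
      have hqcl : q ∉ closure (connectedComponentIn Jᶜ p) := by
        intro hcl
        apply hq.1
        apply comp_frontier hJcl p
        rw [(comp_open hJcl p).frontier_eq]
        exact ⟨hcl, hqV⟩
      have hne : ∀ r, r ∉ J → ∀ ζ ∈ SS, β ζ - r ≠ 0 := by
        intro r hr ζ hζ h
        apply hr
        rw [← sub_eq_zero.1 h, ← hJ]
        exact mem_image_of_mem β hζ
      obtain ⟨n, hn⟩ := hTCI.2 (fun ζ => β ζ - p) (hc.sub continuousOn_const) (hne p hp.1)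
      obtain ⟨m, hm⟩ := hTCI.2 (fun ζ => β ζ - q) (hc.sub continuousOn_const) (hne q hq.1)
      have h1 := p3 SS _ _ (p4 SS _ m hn) (p4 SS _ (-n) hm)
      have h2 : LogOn SS (fun ζ => (fun z => (z - p) ^ m * (z - q) ^ (-n)) (β ζ)) := by
        refine p6 SS SS _ _ subset_rfl h1 ?_
        intro ζ hζ
        have hζ0 : ζ ≠ 0 := by
          rintro rfl
          rw [mem_sphere_zero_iff_norm, norm_zero] at hζ
          exact zero_ne_one hζ
        change ((β ζ - p) * ζ ^ n) ^ m * ((β ζ - q) * ζ ^ m) ^ (-n) = (β ζ - p) ^ m * (β ζ - q) ^ (-n)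
        rw [_root_.mul_zpow, _root_.mul_zpow, ← _root_.zpow_mul, ← _root_.zpow_mul]
        have h3 : ζ ^ (n * m) * ζ ^ (m * -n) = 1 := by
          rw [← zpow_add₀ hζ0]
          have h4 : n * m + m * -n = 0 := by ring
          rw [h4, zpow_zero]
        calc (β ζ - p) ^ m * ζ ^ (n * m) * ((β ζ - q) ^ (-n) * ζ ^ (m * -n))
            = (β ζ - p) ^ m * (β ζ - q) ^ (-n) * (ζ ^ (n * m) * ζ ^ (m * -n)) := by ring
          _ = _ := by rw [h3, mul_one]
      have h3 := p2 SS β (fun z => (z - p) ^ m * (z - q) ^ (-n)) hSS hc hi h2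
      rw [hJ] at h3
      have hq0 : ∀ z ∈ closure (connectedComponentIn Jᶜ p), z - q ≠ 0 := by
        intro z hz h
        exact hqcl (sub_eq_zero.1 h ▸ hz)
      have h4 := hTJM (connectedComponentIn Jᶜ p) J p (fun z => (z - q) ^ (-n)) m (comp_open hJcl p) hb
        (mem_connectedComponentIn hp.1) (comp_frontier hJcl p)
        ((continuousOn_id.sub continuousOn_const).zpow₀ (-n) fun z hz => Or.inl (hq0 z hz))
        (fun z hz => zpow_ne_zero _ (hq0 z hz)) h3
      rw [h4] at hm
      have h5 : LogOn SS (fun ζ => (fun z => z - q) (β ζ)) := by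
        refine p6 SS SS _ _ subset_rfl hm ?_
        intro ζ _
        change (β ζ - q) * ζ ^ (0 : ℤ) = β ζ - q
        rw [zpow_zero, mul_one]
      have h6 := p2 SS β (fun z => z - q) hSS hc hi h5
      rw [hJ] at h6
      exact hq.2 h6
  refine ⟨?_, ?_, ?_, ?_, ?_, ?_, ?_, R, hR, hfar⟩
  · rcases hinn with h | ⟨p, _, _, h⟩
    · rw [h]; exact isOpen_empty
    · rw [h]; exact comp_open hJcl p
  · rcases hinn with h | ⟨p, _, hb, h⟩
    · rw [h]; exact Bornology.isBounded_empty
    · rw [h]; exact hb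
  · rcases hinn with h | ⟨p, _, _, h⟩
    · rw [h]; exact isPreconnected_empty
    · rw [h]; exact hVpre p
  · rw [hout]; exact comp_open hJcl _
  · rw [hout]; exact hVpre _
  · rcases hinn with h | ⟨p, _, _, h⟩
    · rw [h, frontier_empty]; exact empty_subset _
    · rw [h]; exact comp_frontier hJcl p
  · rw [hout]; exact comp_frontier hJcl _

end Pool.Agent.Helper80.QD
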